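import Pool.Agent.TH862.SN.FF

/-!
# Beilinson's conjecture for divisors and `1`-cycles over finite fields: products

`k` is the algebraic closure of a finite field, `𝒱` a class of smooth projective irreducible
varieties over `k` closed under products (for the problem: all smooth projective varieties), `C` the
Chow groups with rational coefficients (in the form of their formal properties, `IsChowProj`) and
`H` a Weil cohomology theory (`IsWeilProj`). The facts on cycles which are used:
* `HasFiniteFieldFacts C`: every `1`-cycle is a linear combination of classes `f_* [D]`,
  `f : D ⟶ X` a morphism from a curve; zero-cycles of degree zero are torsion; the modified diagonal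
  of Gross and Schoen of a curve is torsion (Soulé); `CH^1(X)` is finite-dimensional and numerically
  trivial divisors are torsion;
* `HasCurveSections H`: `H_1(Y)` is a direct summand of `H_1(E)` for some curve `E`, by means of
  correspondences (hyperplane sections and the reducibility theorem of Poincare).

Theorem. Let `S` be a class of varieties `X` such that for all curves `D` the pairing between
divisors and `1`-cycles on `X × D` is perfect, that is, the numerically trivial `1`-cycles on
`X × D` are torsion. Then every member `X` of the smallest class which contains `S`, is closed under
products, and contains `X` if the zero-cycles on `X` are supported on members of the class, has the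
same property, and the pairing `CH^n(X) × CH^(dim X - n)(X) ⟶ ℚ` is perfect for `n ≤ 1` and for
`n ≥ dim X - 1`; if `dim X ≤ 3` it is perfect for all `n`.

Proof. As for smash-nilpotent cycles (see the results on Voevodsky's conjecture), but with the
ideal `0`: for two factors write a `1`-cycle as a combination of classes `(f, g)_* [D]` and factor
its mixed part through a curve `E` as in `HasCurveSections`; this changes it by numerically trivial
`1`-cycles on the `D × Y`. Products with a third factor are treated with the modified diagonal: a
`1`-cycle on a product of three varieties is determined by its projections to two factors.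
-/

open CategoryTheory AlgebraicGeometry

set_option autoImplicit false

universe u v w

namespace Pool.Agent.Results.MP_4960c7_ag.ProductsWithCurves

open Pool.Agent.H914 Pool.Agent.W492.BB Pool.Agent.TH133 Pool.Agent.TH862.SN

/-- Let `S` be a class of varieties `X` such that, for all curves `D`, the pairing between divisors
and `1`-cycles on `X × D` is perfect. All members `X` of the class generated by `S` by means of
products and supports of zero-cycles have the same property, and the pairing
`CH^n(X) × CH^(dim X - n)(X) ⟶ ℚ` is perfect for `n ≤ 1` and for `n ≥ dim X - 1`. -/
theorem result {k : Type u} [Field k] {𝒱 : VarClass k} (C : TheoryData.{u, v, 0} 𝒱 ℚ)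
    [IsChowProj C] {K : Type w} [Field K] [CharZero K] (H : WeilTheoryData.{u, v, w} C K)
    [IsWeilProj H] (hC : HasFiniteFieldFacts C) (hH : HasCurveSections H) (S : 𝒱.Obj → Prop)
    (hS : ∀ X, S X → ∀ D : 𝒱.Obj, D.dim = 1 → PerfectPairing C (X.prod D) 1) (X : 𝒱.Obj)
    (hX : Generated C S X) :
    (∀ D : 𝒱.Obj, D.dim = 1 → PerfectPairing C (X.prod D) 1) ∧
      ∀ n : ℤ, 0 ≤ n → n ≤ X.dim → (n ≤ 1 ∨ (X.dim : ℤ) - 1 ≤ n) → PerfectPairing C X n :=
  perfect_generated hC H hH hS hX

end Pool.Agent.Results.MP_4960c7_ag.ProductsWithCurves
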